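import Pool.Agent.LRG.DefsC
import Pool.Agent.Helper85_Leo.Units

/-!
# Squad LRN: Leopoldt's conjecture for all number fields, minimal counterexamples

Idea (helper74): a unit `u` of a number field `K` is NEW if its norm to every proper subfield is a
root of unity. A new unit of infinite order generates `K`. If Leopoldt's conjecture fails at `p` for
`K` and holds for all proper subfields of `K` (minimal counterexample), then the `p`-adic logarithms
of a maximal independent system of new units are linearly dependent. So the method of squad LRG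
applies to the new units of all number fields, primitive or not.
-/

set_option autoImplicit false

open Polynomial NumberField
open Pool.Agent.Helper85_Leo (LeopoldtAt)
open Pool.Agent.LRG

namespace Pool.Agent.LRN

/-- The norm of the unit `u` to every proper subfield is a root of unity. -/
def IsNew {K : Type} [Field K] [NumberField K] (u : (𝓞 K)ˣ) : Prop :=
  ∀ E : IntermediateField ℚ K, E ≠ ⊤ →
    ∃ N : ℕ, 0 < N ∧ (Algebra.norm E ((u : 𝓞 K) : K)) ^ N = 1

/-- The units `u i` form a maximal multiplicatively independent system of new units. -/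
structure MaxNew {K : Type} [Field K] [NumberField K] {r : ℕ} (u : Fin r → (𝓞 K)ˣ) : Prop where
  new : ∀ i, IsNew (u i)
  ind : Indep u
  max : ∀ v : (𝓞 K)ˣ, IsNew v → ∃ (N : ℕ) (c : Fin r → ℤ), 0 < N ∧ v ^ N = ∏ i, u i ^ c i

/-- `K` is a minimal counterexample to Leopoldt's conjecture at `p`. -/
def MinCex (K : Type) [Field K] [NumberField K] (p : ℕ) [Fact p.Prime] : Prop :=
  ¬ LeopoldtAt K p ∧ ∀ E : IntermediateField ℚ K, E ≠ ⊤ → LeopoldtAt E p

/-- The number fields inside `ℂ` which are minimal counterexamples to Leopoldt's conjecture at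
`p`. -/
def MinBad (p : ℕ) [Fact p.Prime] : Set (IntermediateField ℚ ℂ) :=
  {K | ∃ _ : NumberField K, MinCex K p}

/-- The number fields inside `ℂ` of degree `n` which have a maximal independent system of `r` new
units with all conjugates at most `X`. -/
def NewFlds (n r : ℕ) (X : ℝ) : Set (IntermediateField ℚ ℂ) :=
  {K | ∃ _ : NumberField K, Module.finrank ℚ K = n ∧ ∃ u : Fin r → (𝓞 K)ˣ, MaxNew u ∧ Bdd u X}

/-- The number fields inside `ℂ` of degree `n` with a new unit of infinite order which has all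
conjugates at most `X`. -/
def OneNew (n : ℕ) (X : ℝ) : Set (IntermediateField ℚ ℂ) :=
  {K | ∃ _ : NumberField K, Module.finrank ℚ K = n ∧
    ∃ u : Fin 1 → (𝓞 K)ˣ, IsNew (u 0) ∧ Indep u ∧ Bdd u X}

/-- Every unit of `K` of infinite order generates `K`: the proper subfields of `K` have finite unit
groups (they are `ℚ` and imaginary quadratic fields). -/
def UGen (K : Type) [Field K] [NumberField K] : Prop :=
  ∀ u : (𝓞 K)ˣ, ¬ IsOfFinOrder u → IntermediateField.adjoin ℚ {((u : 𝓞 K) : K)} = ⊤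

/-- The number fields inside `ℂ` with `r₁` real and `r₂` complex places and regulator at most `T` in
which every unit of infinite order generates the field. -/
def UReg (r₁ r₂ : ℕ) (T : ℝ) : Set (IntermediateField ℚ ℂ) :=
  {K | ∃ _ : NumberField K, InfinitePlace.nrRealPlaces K = r₁ ∧
    InfinitePlace.nrComplexPlaces K = r₂ ∧ UGen K ∧ Units.regulator K ≤ T}

/-- KER (helper74). The `p`-adic logarithms of a maximal independent system of new units of a minimal
counterexample are linearly dependent. -/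
def KerStmt : Prop := ∀ (p : ℕ) [Fact p.Prime] (K : Type) [Field K] [NumberField K] (r e : ℕ)
  (u : Fin r → (𝓞 K)ˣ) (l : (K →+* ℂ_[p]) → Fin r → ℂ_[p]), MinCex K p → MaxNew u →
  (∀ σ i, Pool.Agent.Helper85_Leo.HasLog p
    (Pool.Agent.Helper85_Leo.unitVal σ (u i) ^ e) (l σ i)) →
  ∃ c : Fin r → ℂ_[p], c ≠ 0 ∧ ∀ σ, ∑ i, c i * l σ i = 0

/-- The point of a system of new units of a minimal counterexample is a zero of the universal Gram
determinant. -/
def FalConcl : Prop := ∀ (p : ℕ) [Fact p.Prime] (n r : ℕ) (z₀ : Ix n r → ℤ) (e : Fin r → ℤ)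
  (M : ℕ) (F : MvPowerSeries (Ix n r) ℤ_[p]), 0 < M → Univ p z₀ e M F →
  ∀ (K : Type) [Field K] [NumberField K] (u : Fin r → (𝓞 K)ˣ) (x : Ix n r → ℤ),
    Module.finrank ℚ K = n → 0 < r → MaxNew u → cst K u = e →
    (∀ s, pt n K u s = z₀ s + (p : ℤ) ^ 2 * x s) → (∀ s, (p : ℤ) ∣ x s) →
    MinCex K p → VanZ p F (fun s => (x s : ℤ_[p]))

/-- The size of the coordinates and the constant coefficients. -/
def SizConcl : Prop := ∀ (n r : ℕ) (K : Type) [Field K] [NumberField K] (u : Fin r → (𝓞 K)ˣ)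
  (X : ℝ), Module.finrank ℚ K = n → 1 ≤ X → 1 < n → (∀ i, IsNew (u i)) → Indep u → Bdd u X →
    (∀ i, cst K u i = 1 ∨ cst K u i = -1) ∧
    (∀ s, |(pt n K u s : ℝ)| ≤ (2 ^ n * n) * X ^ (2 * n))

/-- An arc on which the universal Gram determinant vanishes carries boundedly many fields. -/
def BlkConcl : Prop := ∀ n r : ℕ, 0 < r → 1 < n → ∃ K₀ : ℕ, ∀ (p : ℕ) [Fact p.Prime]
  (z₀ : Ix n r → ℤ) (e : Fin r → ℤ) (M : ℕ) (F : MvPowerSeries (Ix n r) ℤ_[p]),
  0 < M → Univ p z₀ e M F →
  ∀ (ξ : Ix n r → PowerSeries ℤ_[p]), (∀ s, AlgT (ξ s)) → VanT p F ξ →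
  ∀ (κ : Type) (K : κ → IntermediateField ℚ ℂ) (_hK : ∀ k, NumberField (K k))
    (u : ∀ k, Fin r → (𝓞 (K k))ˣ) (x : κ → Ix n r → ℤ) (k₀ : κ),
    Function.Injective K → (∀ k, Module.finrank ℚ (K k) = n) →
    (∀ k i, IsNew (u k i)) → (∀ k, Indep (u k)) → (∀ k, cst (K k) (u k) = e) →
    (∀ k s, pt n (K k) (u k) s = z₀ s + (p : ℤ) ^ 2 * x k s) →
    (∀ k s, (p : ℤ) ∣ x k s) →
    (∀ s, PowerSeries.constantCoeff (ξ s) = (x k₀ s : ℤ_[p])) →
    (∀ q : MvPolynomial (Ix n r) ℤ, MvPolynomial.aeval ξ q = 0 →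
      ∀ k, MvPolynomial.eval (x k) q = 0) →
    (Set.range K).encard ≤ K₀

/-- The main counting theorem: few minimal counterexamples with short new units. -/
def CntConcl : Prop := ∀ (p : ℕ) [Fact p.Prime] (n r : ℕ) (ε : ℝ), 0 < ε → 0 < r → 1 < n →
  ∃ C : ℝ, ∀ X : ℝ, 1 ≤ X → (NewFlds n r X ∩ MinBad p).Finite ∧
    ((NewFlds n r X ∩ MinBad p).ncard : ℝ) ≤ C * X ^ ε

/-- There are few fields with a short new unit. -/
def OneConcl : Prop := ∀ n : ℕ, 1 < n → ∃ C : ℝ, ∀ X : ℝ, 1 ≤ X →
  (OneNew n X).Finite ∧ ((OneNew n X).ncard : ℝ) ≤ C * X ^ C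

/-- The logarithms of independent units are linearly independent over the real numbers (no condition
on the rank). -/
def InrStmt : Prop := ∀ (K : Type) [Field K] [NumberField K] (r : ℕ) (u : Fin r → (𝓞 K)ˣ),
  Indep u → ∀ c : Fin r → ℝ,
    (∀ σ : K →+* ℂ, ∑ i, c i * Real.log ‖σ ((u i : 𝓞 K) : K)‖ = 0) → c = 0

/-- RK1. Leopoldt's conjecture for fields of unit rank at most one. -/
def Rk1Stmt : Prop := ∀ (p : ℕ) [Fact p.Prime] (K : Type) [Field K] [NumberField K],
  Units.rank K ≤ 1 → LeopoldtAt K p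

/-- LWU. Many primitive fields of given signature with a full system of short units. -/
def LwuStmt : Prop := ∀ r₁ r₂ : ℕ, 3 ≤ r₁ + r₂ → ∃ c X₀ : ℝ, 0 < c ∧ ∀ X : ℝ, X₀ ≤ X →
  ∃ S : Finset (IntermediateField ℚ ℂ), X ^ c ≤ (S.card : ℝ) ∧
    ∀ K ∈ S, ∃ _ : NumberField K, InfinitePlace.nrRealPlaces K = r₁ ∧
      InfinitePlace.nrComplexPlaces K = r₂ ∧ Primitive K ∧
      ∃ u : Fin (r₁ + r₂ - 1) → (𝓞 K)ˣ, Indep u ∧ Bdd u X

/-- The non-CM number fields inside `ℂ` with `r₁` real and `r₂` complex places which have a full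
system of independent units with all conjugates at most `X`. Non-CM: every proper subfield has a
smaller unit rank. -/
def SizeFlds (r₁ r₂ : ℕ) (X : ℝ) : Set (IntermediateField ℚ ℂ) :=
  {K | ∃ _ : NumberField K, InfinitePlace.nrRealPlaces K = r₁ ∧
    InfinitePlace.nrComplexPlaces K = r₂ ∧
    (∀ E : IntermediateField ℚ K, E ≠ ⊤ → Units.rank E < Units.rank K) ∧
    ∃ u : Fin (Units.rank K) → (𝓞 K)ˣ, Indep u ∧ Bdd u X}

/-- SNU (helper5). Short new units from short units. -/
def SnuStmt : Prop := ∀ n r : ℕ, ∃ A : ℕ, ∀ (K : Type) [Field K] [NumberField K]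
  (u : Fin r → (𝓞 K)ˣ) (X : ℝ), Module.finrank ℚ K = n → Units.rank K = r → 1 ≤ X → Indep u →
  Bdd u X → ∃ (s : ℕ) (v : Fin s → (𝓞 K)ˣ), s ≤ r ∧ MaxNew v ∧ Bdd v (X ^ A)

/-- FFX (helper98). The set `SizeFlds` is finite. PROOF. `Units.rank K = r₁ + r₂ - 1`. The field
`E` generated by the units `u i` contains `Units.rank K` independent units, so
`Units.rank E ≥ Units.rank K` and `E = ⊤`. So `K` is generated over `ℚ` (inside `ℂ`) by
`r₁ + r₂ - 1` algebraic integers of degree at most `n = r₁ + 2 r₂` all of whose conjugates are at most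
`X`; these are finitely many (row POL of LRG, `Helper49_LRG/POL.lean`, for every degree at most `n`,
`max X 1`, or `NumberField.Embeddings.finite_of_norm_le`). -/
def FfxStmt : Prop := ∀ (r₁ r₂ : ℕ) (X : ℝ), (SizeFlds r₁ r₂ X).Finite

end Pool.Agent.LRN
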