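import Pool.Agent.LRN.StmtsB

/-!
# Squad LRN: rows RGS FLO (the lower bound in both orders)

DELIVER: `Pool/Agent/HelperNN_LRN/XXX.lean`, import `Pool.Agent.LRN.StmtsC`, namespace
`Pool.Agent.LRN.HNN`, `theorem xxx (hypotheses = the statements in uses, in this order) : XxxStmt`.
-/

set_option autoImplicit false

open Polynomial NumberField
open Pool.Agent.Helper85_Leo (LeopoldtAt)
open Pool.Agent.LRG

namespace Pool.Agent.LRN

/-- RGS (100 lines; uses INR). Short independent units give a small regulator.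
PROOF. `Units.regOfFamily u` is the absolute value of the determinant of the matrix
`mult w * log (w (u i))` (`regOfFamily_eq_det`); it is not `0` by INR (`Indep u`; or use
`Units.IsMaxRank`), and `Units.regOfFamily_div_regulator` (the quotient is a nonzero natural number)
gives `regulator K ≤ regOfFamily u` (see `Helper14_LRG/REB.lean`, lines 100 - 130). The entries:
`|σ u| ≤ X` for all `σ` and the product of all `|σ u|` is `1`, so `|log |σ u|| ≤ n log X`, entries
`≤ 2 n log X`, `|det| ≤ r! (2 n log X) ^ r` (`Matrix.det_le`). `C = n! (2 n) ^ n` or so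
(`rank K ≤ n`, `H74.rank_le` in `Helper74_LRN/DIR.lean`; if `log X < 1` the power stays `r`). -/
def RgsStmt : Prop := ∀ n : ℕ, ∃ C : ℝ, 0 < C ∧ ∀ (K : Type) [Field K] [NumberField K] (X : ℝ)
  (u : Fin (Units.rank K) → (𝓞 K)ˣ), Module.finrank ℚ K = n → 1 ≤ X → Indep u → Bdd u X →
  Units.regulator K ≤ C * Real.log X ^ Units.rank K

/-- FLO (80 lines; uses LWU, RGS, FfxStmt). Many primitive fields with short units and small
regulator.
PROOF. Let `c, X₀` be those of LWU, `C` that of RGS for `n = r₁ + 2 r₂`, `k ≥ 1` a natural number with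
`C ≤ k`; apply LWU with `X' = X ^ (1 / k)`: a finset `S` with at least `X ^ (c / k)` elements, primitive
fields `K` with `r = r₁ + r₂ - 1 = Units.rank K` independent units `≤ X' ≤ X`, and
`regulator K ≤ C (log X / k) ^ r ≤ (log X) ^ r` (`r ≥ 1`). A primitive field `K` with `Units.rank K ≥ 1`
satisfies the non-CM condition: a proper subfield is `⊥`, of degree `1` and unit rank `0`
(`H74.rank_le`). So all elements of `S` are in the set, which is finite by FFX:
`Set.ncard_coe_finset`, `Set.ncard_le_ncard`. -/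
def FloStmt : Prop := ∀ r₁ r₂ : ℕ, 3 ≤ r₁ + r₂ → ∃ c X₀ : ℝ, 0 < c ∧ ∀ X : ℝ, X₀ ≤ X →
  X ^ c ≤ ({K | K ∈ SizeFlds r₁ r₂ X ∧ (∀ E : IntermediateField ℚ K, E = ⊥ ∨ E = ⊤) ∧
    ∃ _ : NumberField K, Units.regulator K ≤ Real.log X ^ (r₁ + r₂ - 1)}.ncard : ℝ)

end Pool.Agent.LRN
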