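import Pool.Agent.LRN.Defs

/-!
# Squad LRN: rows ONW UNW URE SZC DIR

DELIVER: `Pool/Agent/HelperNN_LRN/XXX.lean`, import `Pool.Agent.LRN.Stmts`, namespace
`Pool.Agent.LRN.HNN`, `theorem xxx (hypotheses = the statements in uses, in this order) : XxxStmt`.
-/

set_option autoImplicit false

open Polynomial NumberField
open Pool.Agent.Helper85_Leo (LeopoldtAt)
open Pool.Agent.LRG

namespace Pool.Agent.LRN

/-- The number fields inside `ℂ` for which Leopoldt's conjecture fails at `p`, while it holds at `p`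
for all proper subfields of unit rank at least `2`. -/
def BadX (p : ℕ) [Fact p.Prime] : Set (IntermediateField ℚ ℂ) :=
  {K | ∃ _ : NumberField K, ¬ LeopoldtAt K p ∧
    ∀ E : IntermediateField ℚ K, E ≠ ⊤ → 2 ≤ Units.rank E → LeopoldtAt E p}

/-- ONW (no hypotheses). Few fields with a short new unit of infinite order.
PROOF. Copy of `Helper62_LRG/FEW.lean` (few) with `H49.pol` (`Helper49_LRG/POL.lean`, no hypotheses)
and of `Helper41_LRG/GNU.lean` (gnu): there the claim `htop` (the unit generates `K`) is now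
`Pool.Agent.LRN.H29.gen` of `Pool/Agent/Helper29_LRN/GEN.lean` (landed:
`gen (hu : ∀ i, IsNew (u i)) (hI : Indep u) (i) : IntermediateField.adjoin ℚ {((u i : 𝓞 K) : K)} = ⊤`). -/
def OnwStmt : Prop := OneConcl

/-- UNW (uses nothing; RK1 = `Pool.Agent.LRN.H98.rk1`). Fields in which every unit of infinite order
generates the field.
PROOF. (1) A proper subfield `E` has only units of finite order (a unit of `E` is a unit of `K` which
does not generate `K`), so `Units.rank E = 0` (otherwise a fundamental unit of `E`,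
`NumberField.Units.fundSystem`, has infinite order; or `Indep` of a basis), and Leopoldt holds for
`E` at all `p` by RK1.
(2) The norm of a unit `u` of `K` to `E` is a unit of `E`, so of finite order: `u` is new.
(3) If `r = Units.rank K` and `u : Fin r → (𝓞 K)ˣ` is independent, then for every unit `v` the
`r + 1` units `v, u i` are dependent (`Pool.Agent.LRN.H98` has `indep_le_rank` in
`Helper98_LRN/FFX.lean`): `v ^ a = ∏ u i ^ c i` with `a ≠ 0` (`a = 0` contradicts independence);
if `a < 0` invert. So `MaxNew u`. This needs `K` arbitrary: state it for all `v`.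
(4) `¬ LeopoldtAt K p` gives `MinCex K p` by (1). -/
def UnwStmt : Prop := ∀ (K : Type) [Field K] [NumberField K], UGen K →
  (∀ E : IntermediateField ℚ K, E ≠ ⊤ → Units.rank E = 0) ∧
  (∀ v : (𝓞 K)ˣ, IsNew v) ∧
  (∀ (r : ℕ) (u : Fin r → (𝓞 K)ˣ), Units.rank K = r → Indep u → MaxNew u) ∧
  ∀ (p : ℕ) [Fact p.Prime], ¬ LeopoldtAt K p → MinCex K p

/-- URE (uses ONW, UNW, CntConcl). The regulator order: finiteness and the upper bound.
PROOF. `H77.fin` (`Helper77_LRG/FIN.lean`) and `H38.upr` (`Helper38_LRG/UPR.lean`) with `UGen` in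
the place of `Primitive`, `OneNew` for `OneFlds`, `NewFlds` for `ShortFlds`, `MinBad p` for `Bad p`
(inside: a field of `UReg ∩ Bad p` is in `MinBad p` by UNW (4), `MaxNew` by UNW (3), `IsNew` by UNW
(2)). RegConcl = `Pool.Agent.LRG.H29.regConcl` (`Pool/Agent/Helper29_LRG/AssW.lean`); the theorem
takes it as a hypothesis. -/
def UreStmt : Prop := OneConcl → UnwStmt → RegConcl → CntConcl → ∀ r₁ r₂ : ℕ, 3 ≤ r₁ + r₂ →
  (∀ T : ℝ, (UReg r₁ r₂ T).Finite) ∧
  ∀ (p : ℕ) [Fact p.Prime] (ε : ℝ), 0 < ε → ∃ C : ℝ, ∀ T : ℝ, 0 ≤ T →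
    ((UReg r₁ r₂ T ∩ Bad p).ncard : ℝ) ≤ C * Real.exp (ε * T ^ (1 / ((r₁ : ℝ) + r₂ - 1)))

/-- SZC. The order by the size of the units: the upper bound.
PROOF. Let `K` in `SizeFlds r₁ r₂ X ∩ BadX p`, `n = r₁ + 2 r₂`, `r = r₁ + r₂ - 1 = Units.rank K`
(`H38.sig` of `Helper38_LRG/UPR.lean`). By `Rk1Stmt` (proper subfields of unit rank `≤ 1`)
`MinCex K p`. By `SnuStmt` (for `n`, `r`, a number `A`) there are `s ≤ r` and `v : Fin s → units`
with `MaxNew v`, `Bdd v (X ^ A)`. If `s = 0`, `KerStmt` (with `e = 1` and any `l`, there is nothing to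
give: `Fin 0` is empty) gives `c : Fin 0 → ℂ_[p]`, `c ≠ 0`, a contradiction. So `1 ≤ s ≤ r` and
`K ∈ NewFlds n s (X ^ A) ∩ MinBad p`. So `SizeFlds ∩ BadX p` is contained in the union of these sets
over `1 ≤ s ≤ r`, each of which is finite with at most `C s * (X ^ A) ^ (ε / (A + 1))` elements by
`CntConcl` for `ε / (A + 1)`, and `(X ^ A) ^ (ε / (A + 1)) ≤ X ^ ε`. Sum over `s`. -/
def SzcStmt : Prop := KerStmt → Rk1Stmt → SnuStmt → CntConcl → ∀ (p : ℕ) [Fact p.Prime]
  (r₁ r₂ : ℕ) (ε : ℝ), 3 ≤ r₁ + r₂ → 0 < ε → ∃ C : ℝ, ∀ X : ℝ, 1 ≤ X →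
    ((SizeFlds r₁ r₂ X ∩ BadX p).ncard : ℝ) ≤ C * X ^ ε

/-- DIR (no hypotheses). Every number field has a full system of independent units (so every non-CM
field of signature `(r₁, r₂)` is in `SizeFlds r₁ r₂ X` for some `X`), and the rank of the proper
subfields is at most `1` in the cases of the theorem.
PROOF. (1) The fundamental system (`NumberField.Units.fundSystem`, `Fin (Units.rank K)`) is
independent (`Indep`); finitely many units and embeddings, take the maximum of the absolute values.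
(2) `E` proper and non-CM: `rank E < rank K = 2` gives `rank E ≤ 1`. If `finrank ℚ K = 4`, a proper
subfield has degree `1` or `2` and so `Units.rank E ≤ 1`
(`Units.rank = card (InfinitePlace) - 1 ≤ finrank - 1`). If `finrank ℚ K` is prime: `E = ⊥`, degree
`1`, rank `0`. -/
def DirStmt : Prop := (∀ (K : Type) [Field K] [NumberField K], ∃ (X : ℝ)
    (u : Fin (Units.rank K) → (𝓞 K)ˣ), Indep u ∧ Bdd u X) ∧
  ∀ (K : Type) [Field K] [NumberField K] (E : IntermediateField ℚ K), E ≠ ⊤ →
    Units.rank E < Units.rank K →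
    (Module.finrank ℚ K = 4 ∨ (Module.finrank ℚ K).Prime ∨ Units.rank K = 2) → Units.rank E ≤ 1

end Pool.Agent.LRN
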