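import Pool.Agent.LRN.Stmts

/-!
# Squad LRN: rows LHM MCX UNR SRC (the sources of all counterexamples, unconditional form)

GOAL. For every degree `n`: ALL violations of Leopoldt's conjecture at `p ≤ P(X)` by number fields of
degree `n` (of any kind, CM fields and fields with many subfields included) with a full system of
independent units `≤ X` come from at most `C X ^ ε` fields: each such field contains a violating
field of a fixed set `S(X)` of cardinality at most `C X ^ ε`.

DELIVER: `Pool/Agent/HelperNN_LRN/XXX.lean`, import `Pool.Agent.LRN.StmtsB`, namespace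
`Pool.Agent.LRN.HNN`, `theorem xxx (hypotheses = the statements in uses, in this order) : XxxStmt`.
-/

set_option autoImplicit false

open Polynomial NumberField
open Pool.Agent.Helper85_Leo (LeopoldtAt)
open Pool.Agent.LRG

namespace Pool.Agent.LRN

/-- The number fields inside `ℂ` of degree `n` which have a full system of independent units with all
conjugates at most `X`. -/
def UnitFlds (n : ℕ) (X : ℝ) : Set (IntermediateField ℚ ℂ) :=
  {K | ∃ _ : NumberField K, Module.finrank ℚ K = n ∧
    ∃ u : Fin (Units.rank K) → (𝓞 K)ˣ, Indep u ∧ Bdd u X}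

/-- The set of the sources. -/
def Srcs (n B : ℕ) (X : ℝ) : Set (IntermediateField ℚ ℂ) :=
  {E | ∃ d s : ℕ, 1 < d ∧ d ≤ n ∧ 0 < s ∧ s ≤ n ∧ E ∈ NewFlds d s ((max X 1) ^ B)}

/-- LHM (60 lines, no hypotheses). Leopoldt's conjecture descends along a homomorphism of fields.
PROOF. Let `ε i` be units of `F` as in `LeopoldtAt F p`. Their images under
`RingOfIntegers.mapRingHom f` (`Units.map`) are units of `K` with the same properties: if
`x - 1` is in the radical of `(p)`, then `p ∣ (x - 1) ^ k`, apply `f`; independence by injectivity;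
`p ^ N ∣ y - 1` is preserved. -/
def LhmStmt : Prop := ∀ (p : ℕ) [Fact p.Prime] (F K : Type) [Field F] [NumberField F] [Field K]
  [NumberField K], (F →+* K) → LeopoldtAt K p → LeopoldtAt F p

/-- MCX (80 lines; uses LHM). Every counterexample contains a minimal one.
PROOF. Strong induction on `finrank ℚ K`. If all `E' : IntermediateField ℚ K`, `E' ≠ ⊤`, satisfy
`LeopoldtAt E' p`, take `E = K`. Otherwise let `E' ≠ ⊤` with `¬ LeopoldtAt E' p`, and
`L = IntermediateField.lift E' ≤ K`, a subfield of `ℂ` isomorphic to `E'` (so `¬ LeopoldtAt L p` by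
LHM for `E' →+* L`), of smaller degree. -/
def McxStmt : Prop := ∀ (p : ℕ) [Fact p.Prime] (K : IntermediateField ℚ ℂ) [NumberField K],
  ¬ LeopoldtAt K p → ∃ (E : IntermediateField ℚ ℂ) (_ : NumberField E), E ≤ K ∧ MinCex E p

/-- UNR (120 lines; FRK, EXT of LRS are landed: `Pool.Agent.LRS.H7.frk`, `ext_`). Short units of a
subfield.
PROOF. `w i` = the norm of `u i` to `F`, a unit of `F`; every conjugate `σ (w i)` is the product of
the `τ (u i)` over the `[K : F]` extensions `τ` of `σ` (`Algebra.norm_eq_prod_embeddings`), so its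
absolute value is at most `X ^ [K : F] ≤ X ^ [K : ℚ]`. Let `w ∘ f`, `f : Fin s → Fin (rank K)` be a
maximal independent subfamily (EXT). For every unit `y` of `F` a power of `y` (in `K`) is a product of
powers of the `u i` (FRK); take norms: a power of `y ^ [K : F]` is a product of powers of the `w i`,
so a power of `y` is a product of powers of the `w (f j)`. So `s = Units.rank F`:
`s ≤ Units.rank F` by `Pool.Agent.LRN.H98.indep_le_rank`; and the `s` elements `w (f j)` span a
subgroup of finite index modulo torsion (or over `ℚ`), which has rank `≤ s`, so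
`Units.rank F ≤ s` (e.g. apply EXT style counting: a fundamental system of `F` has powers in the span
of `s` elements; if `Units.rank F > s` the fundamental units are dependent). -/
def UnrStmt : Prop := ∀ (F K : Type) [Field F] [NumberField F] [Field K] [NumberField K]
  [Algebra F K] (X : ℝ) (u : Fin (Units.rank K) → (𝓞 K)ˣ), 1 ≤ X → Indep u → Bdd u X →
  ∃ v : Fin (Units.rank F) → (𝓞 F)ˣ, Indep v ∧ Bdd v (X ^ Module.finrank ℚ K)

/-- SRC (120 lines; uses KER RK1 SNU MCX UNR). The sources.
PROOF. For every `d ≤ n` and `r ≤ n` let `A d r` be the number of SNU, and `B = n * max A + 1` or so. Let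
`K ∈ UnitFlds n X` violate Leopoldt at `p`, `E ≤ K` a minimal counterexample (MCX). `d = [E : ℚ] ≤ n`,
and `Units.rank E ≥ 2` by RK1, in particular `d > 1`. UNR for `E ≤ K` (the algebra of
`IntermediateField.inclusion`): a full system `v` of units of `E` with conjugates `≤ X ^ n` (if
`X < 1` replace `X` by `max X 1`). SNU: new units `w : Fin s → units`, `MaxNew w`, bounded by
`(X ^ n) ^ A ≤ (max X 1) ^ B`, `s ≤ Units.rank E ≤ d ≤ n`
(`Units.rank E + 1 ≤ finrank ℚ E`, cf. `H74.dir`). `s = 0` is impossible by KER (as in
`Helper69_LRN/SZC.lean`). -/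
def SrcStmt : Prop := KerStmt → Rk1Stmt → SnuStmt → McxStmt → UnrStmt → ∀ n : ℕ, ∃ B : ℕ,
  ∀ (p : ℕ) [Fact p.Prime] (X : ℝ) (K : IntermediateField ℚ ℂ), K ∈ UnitFlds n X → K ∈ Bad p →
    ∃ E ∈ Srcs n B X, E ≤ K ∧ E ∈ MinBad p

end Pool.Agent.LRN
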